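import Pool.Agent.Helper53_C4W.Stm2
import Pool.Agent.C4K.StNum
import Pool.Agent.Helper13_Conc.Tools
import Pool.Agent.Helper9_CG.Stmt

/-!
# MAIN of the C4-free linear arboricity theorem: definitions

Text: `/team-store/PAPER_C4_MAIN.md` (helper22).
Namespaces: `C4W` = base (helper53), `C4K` = walks (helper7), `C4N` = rounds (this directory).
`k = K + C`, `s = ss k = ⌈k ^ (1 - 1/10000)⌉`, 40 groups, coins of the edges in `Fin K`.
-/

set_option autoImplicit false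

open scoped BigOperators Classical

noncomputable section

namespace Pool.Agent.C4N

open Finset
open Pool.Agent.LAG (near Big)
open Pool.Agent.Helper13_Conc (mean)
open Pool.Agent.C4W (outN inN NReg)

/-! ## graphs and path counts -/

/-- the degree -/
def dg {V : Type} (G : SimpleGraph V) (v : V) : ℕ := (G.neighborSet v).ncard

/-- no cycle with four edges -/
def C4free {V : Type} (G : SimpleGraph V) : Prop :=
  ∀ u v x y, u ≠ v → G.Adj u x → G.Adj v x → G.Adj u y → G.Adj v y → x = y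

/-- linear forest -/
def LF {V : Type} (F : SimpleGraph V) : Prop := F.IsAcyclic ∧ ∀ v, (F.neighborSet v).ncard ≤ 2

/-- sequences `z 0 = x, …, z a = y` without repetition, except that `x = y` is allowed -/
def Sq (V : Type) [Fintype V] (a : ℕ) (x y : V) : Finset (Fin (a + 1) → V) :=
  univ.filter fun z => z 0 = x ∧ z (Fin.last a) = y ∧
    (∀ i j : Fin (a + 1), i.1 < a → j.1 < a → z i = z j → i = j) ∧
    ∀ i j : Fin (a + 1), 1 ≤ i.1 → 1 ≤ j.1 → z i = z j → i = j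

/-- weighted number of paths (cycles) with `a` steps from `x` to `y` -/
def npw {V : Type} [Fintype V] (w : V → V → ℝ) (a : ℕ) (x y : V) : ℝ :=
  ∑ z ∈ Sq V a x y, ∏ i : Fin a, w (z i.castSucc) (z i.succ)

/-- few paths: `A max (1, κ ^ a / Q)` -/
def Cnt {V : Type} [Fintype V] (w : V → V → ℝ) (L : ℕ) (A κ Q : ℝ) : Prop :=
  ∀ a x y, 1 ≤ a → a ≤ L → (x ≠ y ∨ 3 ≤ a) → npw w a x y ≤ A * max 1 (κ ^ a / Q)

/-- the indicator of the edges -/
def ind {V : Type} (G : SimpleGraph V) (x y : V) : ℝ := if G.Adj x y then 1 else 0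

/-- balanced orientation -/
structure Ori {V : Type} (R : SimpleGraph V) (O : V → V → Prop) : Prop where
  adj : ∀ x y, R.Adj x y ↔ O x y ∨ O y x
  asy : ∀ x y, O x y → ¬ O y x
  bal : ∀ v, {w | O v w}.ncard ≤ {w | O w v}.ncard + 1 ∧
    {w | O w v}.ncard ≤ {w | O v w}.ncard + 1

/-- state of the rounds: degrees `2 K + e`, `0 ≤ e ≤ C`, the vertices with `e ≠ 0` are sparse, few
short paths and cycles -/
structure St (V : Type) [Fintype V] (R : SimpleGraph V) (K C L : ℕ) (c A Q : ℝ) : Prop where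
  c4 : C4free R
  lo : ∀ v, 2 * K ≤ dg R v
  hi : ∀ v, dg R v ≤ 2 * K + C
  sp : ∀ v, ({u | R.Adj v u ∧ dg R u ≠ 2 * K}.ncard : ℝ) ≤ (K : ℝ) ^ (1 - c)
  ct : Cnt (ind R) L A K Q

/-! ## coins -/

/-- optional degree -/
def ss (k : ℕ) : ℕ := ⌈(k : ℝ) ^ (1 - 1 / 10000 : ℝ)⌉₊

/-- type of a coin: group `g < 40` with probability `s / K` each, otherwise forced -/
def typ (K s : ℕ) (t : Fin K) : Option (Fin 40) :=
  if h : t.1 / s < 40 then some ⟨t.1 / s, h⟩ else none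

variable {V : Type} {K : ℕ}

/-- forced arcs -/
def Rf (O : V → V → Prop) (s : ℕ) (ω : Sym2 V → Fin K) : Set (V × V) :=
  {p | O p.1 p.2 ∧ typ K s (ω s(p.1, p.2)) = none}

/-- optional arcs of group `g` -/
def Og (O : V → V → Prop) (s : ℕ) (ω : Sym2 V → Fin K) (g : Fin 40) : Set (V × V) :=
  {p | O p.1 p.2 ∧ typ K s (ω s(p.1, p.2)) = some g}

/-- weights of the edges after the first sampling: optional `1`, forced `s / K` -/
def w1 (R : SimpleGraph V) (s : ℕ) (ω : Sym2 V → Fin K) (x y : V) : ℝ :=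
  if R.Adj x y then (if typ K s (ω s(x, y)) = none then (s : ℝ) / K else 1) else 0

/-- the edge is marked -/
def mkd (s : ℕ) (η : Sym2 V → Fin K) (x y : V) : Prop := (η s(x, y)).1 < s

/-- the sampled graph: optional or marked edges -/
def TT (R : SimpleGraph V) (s : ℕ) (ω η : Sym2 V → Fin K) : SimpleGraph V where
  Adj x y := R.Adj x y ∧ (typ K s (ω s(x, y)) ≠ none ∨ mkd s η x y)
  symm := ⟨fun x y h => ⟨h.1.symm, by rw [mkd, Sym2.eq_swap]; exact h.2⟩⟩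
  loopless := ⟨fun _ h => h.1.ne rfl⟩

/-! ## residuals of the smoothing -/

section res

variable [Fintype V]

/-- number of out-arcs with coin in `T` -/
def cP (O : V → V → Prop) (T : Fin K → Prop) (ω : Sym2 V → Fin K) (x : V) : ℝ :=
  ((univ.filter fun y => O x y ∧ T (ω s(x, y))).card : ℝ)

/-- sum of `h` over the out-arcs -/
def hP (O : V → V → Prop) (h : Fin K → ℝ) (ω : Sym2 V → Fin K) (x : V) : ℝ :=
  ∑ y ∈ univ.filter (fun y => O x y), h (ω s(x, y))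

/-- out-degree -/
def od (O : V → V → Prop) (x : V) : ℕ := (univ.filter fun y => O x y).card

/-- the truncated quotient -/
def GG (s : ℕ) (N a b : ℝ) : ℝ :=
  max (-(s : ℝ) ^ (0.6 : ℝ)) (min ((s : ℝ) ^ (0.6 : ℝ)) (N - b)) / max a (s / 2)

/-- the first correction at the tail `x` -/
def GP (O : V → V → Prop) (T : Fin K → Prop) (h : Fin K → ℝ) (s : ℕ) (N : ℝ)
    (ω : Sym2 V → Fin K) (x : V) : ℝ := GG s N (cP O T ω x) (hP O h ω x)

/-- the mean of the first correction, given one arc with coin in `T` and `d` other arcs -/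
def muG (T : Fin K → Prop) (h : Fin K → ℝ) (s : ℕ) (N h1 : ℝ) (d : ℕ) : ℝ :=
  mean (fun η : Fin d → Fin K =>
    GG s N (1 + ((univ.filter fun i => T (η i)).card : ℝ)) (h1 + ∑ i, h (η i)))

/-- the centred second order residual at `x` -/
def Fr (O : V → V → Prop) (T : Fin K → Prop) (h : Fin K → ℝ) (s : ℕ) (N h1 : ℝ)
    (ω : Sym2 V → Fin K) (x : V) : ℝ :=
  ∑ y ∈ univ.filter (fun y => O x y ∧ T (ω s(x, y))),
    (max (cP (fun u v => O v u) T ω y) (s / 2))⁻¹ *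
      ∑ x' ∈ univ.filter (fun x' => x' ≠ x ∧ O x' y ∧ T (ω s(x', y))),
        (muG T h s N h1 (od O x' - 1) - GP O T h s N ω x')

end res

/-! ## input and output of the base -/

/-- input of the base: `N` the graph, `R` forced arcs, `O g` optional arcs, `β` base weights,
`m g` numbers, `ε = k ^ (-c) / M` -/
structure BI (V : Type) [Fintype V] (k s M : ℕ) (c k' : ℝ) (N : SimpleGraph V)
    (R : Set (V × V)) (O : Fin 40 → Set (V × V)) (β : Fin 40 → V → V → ℝ) (m : Fin 40 → ℕ) :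
    Prop where
  c4 : C4free N
  dgN : ∀ x, dg N x ≤ 2 * k
  sub : ∀ p, (p ∈ R ∨ ∃ g, p ∈ O g) → N.Adj p.1 p.2
  ori : ∀ p, (p ∈ R ∨ ∃ g, p ∈ O g) → ¬ (p.swap ∈ R ∨ ∃ g, p.swap ∈ O g)
  deg : ∀ x, (outN (R ∪ ⋃ g, O g) x).card ≤ k ∧ (inN (R ∪ ⋃ g, O g) x).card ≤ k
  dRO : ∀ g, Disjoint R (O g)
  dOO : ∀ g g', g ≠ g' → Disjoint (O g) (O g')
  reg : ∀ g, NReg k s (O g)
  bet : ∀ g x y, 3 / 10 ≤ β g x y ∧ β g x y ≤ 7 / 10
  r0 : ∀ x, |((outN R x).card : ℝ) - k'| ≤ (k : ℝ) ^ (0.52 : ℝ) ∧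
    |((inN R x).card : ℝ) - k'| ≤ (k : ℝ) ^ (0.52 : ℝ)
  row0 : ∀ x, |((outN R x).card : ℝ) + ∑ y ∈ outN (O 0) x, β 0 x y -
    (M * (m 0 : ℝ) - (k : ℝ) ^ (-c))| ≤ (k : ℝ) ^ (-(2 * c))
  col0 : ∀ y, |((inN R y).card : ℝ) + ∑ x ∈ inN (O 0) y, β 0 x y -
    (M * (m 0 : ℝ) - (k : ℝ) ^ (-c))| ≤ (k : ℝ) ^ (-(2 * c))
  row : ∀ g : Fin 40, g ≠ 0 → ∀ x, |k' / (M : ℝ) ^ (g : ℕ) + ∑ y ∈ outN (O g) x, β g x y -
    (M * (m g : ℝ) - (k : ℝ) ^ (-c))| ≤ (k : ℝ) ^ (-(2 * c))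
  col : ∀ g : Fin 40, g ≠ 0 → ∀ y, |k' / (M : ℝ) ^ (g : ℕ) + ∑ x ∈ inN (O g) y, β g x y -
    (M * (m g : ℝ) - (k : ℝ) ^ (-c))| ≤ (k : ℝ) ^ (-(2 * c))

/-- output of the base: `n` classes `f`, special vertices `Z`, those of the host of the class `i`
are `Zc i` -/
structure BO (V : Type) [Fintype V] (k s M : ℕ) (c : ℝ) (N : SimpleGraph V)
    (R : Set (V × V)) (O : Fin 40 → Set (V × V)) (m : Fin 40 → ℕ) (n : ℕ)
    (f : Fin n → V → Option V) (Z : Finset V) (Zc : Fin n → Finset V) : Prop where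
  nn : n = (M - 1) * ∑ g, m g
  inj : ∀ i, C4K.PInj (f i)
  arc : ∀ i x y, f i x = some y → (x, y) ∈ R ∨ ∃ g, (x, y) ∈ O g
  cov : ∀ p ∈ R, ∃ i, f i p.1 = some p.2
  dis : ∀ i i' x y, f i x = some y → f i' x = some y → i = i'
  len : ∀ i x j, 1 ≤ j → C4K.it (f i) j x = some x → M ≤ 4 * j
  dom : ∀ i x, x ∉ Zc i → (∃ y, f i x = some y) ∧ ∃ y, f i y = some x
  sub : ∀ i, Zc i ⊆ Z
  one : ∀ x, (univ.filter fun i => f i x = none).card +
    (univ.filter fun i => ∀ y, f i y ≠ some x).card ≤ 1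
  d1 : ∀ i x, ({y | N.Adj x y ∧ y ∈ Zc i}.ncard : ℝ) ≤ (k : ℝ) ^ (0.48 : ℝ)
  d2 : ∀ x, ({y | N.Adj x y ∧ y ∈ Z}.ncard : ℝ) ≤ (k : ℝ) ^ (1 - c / 2)
  d3 : ∀ g x, ((outN (O g) x ∩ Z).card : ℝ) ≤ s * (k : ℝ) ^ (-(c / 2)) ∧
    ((inN (O g) x ∩ Z).card : ℝ) ≤ s * (k : ℝ) ^ (-(c / 2))

end Pool.Agent.C4N
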