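import Pool.Agent.C4N.Defs

/-!
# MAIN of the C4-free linear arboricity theorem: statements of the modules

Text: `/team-store/PAPER_C4_MAIN.md` (helper22). Each `XStmt` is to be proved as
`theorem x : XStmt`, the statements used are hypotheses.
-/

set_option autoImplicit false

open scoped BigOperators Classical

noncomputable section

namespace Pool.Agent.C4N

open Finset
open Pool.Agent.LAG (near Big)
open Pool.Agent.Helper13_Conc (mean)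
open Pool.Agent.C4W (outN inN NReg)

/-! ## general tools -/

/-- LLB: symmetric local lemma (from `lll_sum`). -/
def LLBStmt : Prop := ∀ (E α ι : Type) [Fintype E] [Fintype α] [Nonempty α] [Fintype ι]
  (B : ι → Finset (E → α)) (W : ι → Finset E) (D : ℕ), 1 ≤ D →
  (∀ i (ω ω' : E → α), (∀ e ∈ W i, ω e = ω' e) → ω ∈ B i → ω' ∈ B i) →
  (∀ i, (W i).card ≤ D) → (∀ e, (univ.filter fun i => e ∈ W i).card ≤ D) →
  (∀ i, ((B i).card : ℝ) * (16 * (D : ℝ) ^ 2) ≤ Fintype.card (E → α)) →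
  ∃ ω, ∀ i, ω ∉ B i

/-- EBL: the edges near a vertex. -/
def EBLStmt : Prop := ∀ (V : Type) [Fintype V] (R : SimpleGraph V) (D ρ : ℕ),
  (∀ v, dg R v ≤ D) →
  (∀ v, (univ.filter fun x => near R ρ v x).card ≤ (D + 1) ^ ρ) ∧
  (∀ v, (univ.filter fun e : Sym2 V => ∃ x y, e = s(x, y) ∧ R.Adj x y ∧ near R ρ v x).card ≤
    (D + 1) ^ (ρ + 1)) ∧
  ∀ e : Sym2 V, (univ.filter fun v => ∃ x y, e = s(x, y) ∧ R.Adj x y ∧ near R ρ v x).card ≤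
    2 * (D + 1) ^ ρ

/-- EDC: the number of the edges of `F` with coin in `T` (from `count_upper`, `mcd_abs`). -/
def EDCStmt : Prop := ∀ (E α : Type) [Fintype E] [Fintype α] [Nonempty α] (F : Finset E)
  (T : Finset α) (m t : ℝ), F.card * ((T.card : ℝ) / Fintype.card α) ≤ m → 0 ≤ t →
  (((univ.filter fun ω : E → α =>
      2 * m + t ≤ ((F.filter fun e => ω e ∈ T).card : ℝ)).card : ℝ) ≤
    Real.exp (-t) * Fintype.card (E → α)) ∧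
  (1 ≤ F.card → ((univ.filter fun ω : E → α =>
      t ≤ |((F.filter fun e => ω e ∈ T).card : ℝ) -
        F.card * ((T.card : ℝ) / Fintype.card α)|).card : ℝ) ≤
    2 * Real.exp (-(t ^ 2 / (2 * F.card))) * Fintype.card (E → α)) ∧
  ∀ j : ℕ, ((univ.filter fun ω : E → α =>
      j ≤ (F.filter fun e => ω e ∈ T).card).card : ℝ) ≤ m ^ j * Fintype.card (E → α)

/-- EUL: balanced orientation (as `Helper48_LLG/Ori.lean`, which uses `balanced_split`). -/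
def EULStmt : Prop := ∀ (V : Type) [Fintype V] (R : SimpleGraph V),
  ∃ O : V → V → Prop, Ori R O

/-- TRK: moments of the number of sampled paths. -/
def TRKStmt : Prop := ∀ L m : ℕ, ∃ D : ℝ, 1 ≤ D ∧ ∀ (V α : Type) [Fintype V] [Fintype α]
  [Nonempty α] (φ : Sym2 V → α → ℝ) (w : V → V → ℝ) (A κ Q : ℝ), 1 ≤ A → 1 ≤ κ → 1 ≤ Q →
  (∀ e t, 0 ≤ φ e t ∧ φ e t ≤ 1) →
  (∀ x y, (∑ t, φ s(x, y) t) / Fintype.card α ≤ w x y) → Cnt w L A κ Q →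
  ∀ a x y, 1 ≤ a → a ≤ L → (x ≠ y ∨ 3 ≤ a) →
  mean (fun ω : Sym2 V → α => npw (fun u v => φ s(u, v) (ω s(u, v))) a x y ^ m) ≤
    (D * A ^ L * max 1 (κ ^ a / Q)) ^ m

/-- RES: the centred second order residual is small (McDiarmid, given the coins of the arcs out
of `x` and into the out-neighbours of `x`). -/
def RESStmt : Prop := ∃ k0 : ℕ, ∀ k K s : ℕ, k0 ≤ k → K ≤ k → 1 ≤ K →
  (k : ℝ) ^ (0.99 : ℝ) ≤ s → s ≤ k →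
  ∀ (V : Type) [Fintype V] (R : SimpleGraph V) (O : V → V → Prop), C4free R →
  (∀ x y, O x y → R.Adj x y) → (∀ x y, O x y → ¬ O y x) →
  (∀ x, od O x ≤ k ∧ od (fun u v => O v u) x ≤ k) →
  ∀ (T : Fin K → Prop) (h : Fin K → ℝ) (N h1 : ℝ), (∀ t, 0 ≤ h t ∧ h t ≤ 1) →
  (∀ t, T t → h t = h1) → ∀ x,
  ((univ.filter fun ω : Sym2 V → Fin K =>
      (k : ℝ) ^ (-0.45 : ℝ) ≤ |Fr O T h s N h1 ω x|).card : ℝ) ≤
    Real.exp (-(k : ℝ) ^ (0.01 : ℝ)) * Fintype.card (Sym2 V → Fin K)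

/-- BET: the base weights of one group (deterministic). -/
def BETStmt : Prop := ∃ k0 : ℕ, ∀ k K s C : ℕ, k0 ≤ k → K ≤ k → 1 ≤ K →
  (k : ℝ) ^ (0.99 : ℝ) ≤ s → s ≤ k →
  ∀ (V : Type) [Fintype V] (O : V → V → Prop),
  (∀ x, K ≤ od O x ∧ od O x ≤ K + C) →
  (∀ x, K ≤ od (fun u v => O v u) x ∧ od (fun u v => O v u) x ≤ K + C) →
  ∀ (T : Fin K → Prop) (h : Fin K → ℝ) (N h1 q0 : ℝ), (∀ t, 0 ≤ h t ∧ h t ≤ 1) →
  (∀ t, T t → h t = h1) → 9 / 20 ≤ h1 → h1 ≤ 11 / 20 → 0 ≤ q0 → q0 ≤ 1 →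
  ∀ ω : Sym2 V → Fin K,
  (∀ x, |cP O T ω x - s| ≤ (s : ℝ) ^ (0.6 : ℝ) ∧
    |cP (fun u v => O v u) T ω x - s| ≤ (s : ℝ) ^ (0.6 : ℝ)) →
  (∀ x, |N - hP O h ω x| ≤ (s : ℝ) ^ (0.6 : ℝ) ∧
    |N - hP (fun u v => O v u) h ω x| ≤ (s : ℝ) ^ (0.6 : ℝ)) →
  (∀ x, |Fr O T h s N h1 ω x| ≤ (k : ℝ) ^ (-0.45 : ℝ) ∧
    |Fr (fun u v => O v u) T h s N h1 ω x| ≤ (k : ℝ) ^ (-0.45 : ℝ)) →
  (∀ y, (((univ.filter fun x => O x y ∧ T (ω s(x, y)) ∧ od O x ≠ K).card : ℝ) ≤ q0 * s) ∧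
    ((univ.filter fun x => O y x ∧ T (ω s(y, x)) ∧ od (fun u v => O v u) x ≠ K).card : ℝ) ≤
      q0 * s) →
  ∃ β : V → V → ℝ, (∀ x y, 3 / 10 ≤ β x y ∧ β x y ≤ 7 / 10) ∧
    (∀ x, |(∑ y ∈ univ.filter (fun y => O x y ∧ T (ω s(x, y))), β x y) +
      (hP O h ω x - h1 * cP O T ω x) - N| ≤ (k : ℝ) ^ (-0.3 : ℝ) + 100 * C * q0) ∧
    ∀ y, |(∑ x ∈ univ.filter (fun x => O x y ∧ T (ω s(x, y))), β x y) +
      (hP (fun u v => O v u) h ω y - h1 * cP (fun u v => O v u) T ω y) - N| ≤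
        (k : ℝ) ^ (-0.3 : ℝ) + 100 * C * q0

/-! ## one round -/

/-- the parameters of a round -/
structure Prm (K C M k s : ℕ) : Prop where
  hk : k = K + C
  hs : s = ss k
  pr : M.Prime
  Mlo : (k : ℝ) ^ (0.539 : ℝ) ≤ M
  Mhi : (M : ℝ) ≤ (k : ℝ) ^ (0.54 : ℝ)

/-- SMP: the coins of the types (from LLB, EBL, EDC, TRK, RES, BET). -/
def SMPStmt : Prop := ∀ (C L : ℕ) (c : ℝ), 0 < c → c ≤ 1 / 1000 → ∃ C1 : ℕ, ∀ δ : ℝ, 0 < δ →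
  ∃ K0 : ℕ, ∀ K M k s : ℕ, K0 ≤ K → Prm K C M k s → ∀ A Q : ℝ, 1 ≤ A → 1 ≤ Q →
  ∀ (V : Type) [Fintype V] (R E : SimpleGraph V) (O : V → V → Prop), St V R K C L c A Q →
  E ≤ R → (∀ v, (dg E v : ℝ) ≤ (K : ℝ) ^ (1 / 50000 : ℝ)) → Ori R O →
  ∃ (ω : Sym2 V → Fin K) (β : Fin 40 → V → V → ℝ) (m : Fin 40 → ℕ),
    BI V k s M (c / 3) ((K : ℝ) - 40 * s) R (Rf O s ω) (Og O s ω) β m ∧
    (∀ g x, ((univ.filter fun y => (x, y) ∈ Og O s ω g ∧ dg R y ≠ 2 * K).card : ℝ) ≤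
        s * (K : ℝ) ^ (-(c / 2)) ∧
      ((univ.filter fun y => (y, x) ∈ Og O s ω g ∧ dg R y ≠ 2 * K).card : ℝ) ≤
        s * (K : ℝ) ^ (-(c / 2))) ∧
    Cnt (w1 R s ω) L ((K : ℝ) ^ δ * A ^ L) (41 * s) Q ∧
    (∀ x, ({y | R.Adj x y ∧ ∃ z, E.Adj y z ∧ typ K s (ω s(y, z)) ≠ none}.ncard : ℝ) ≤
      (K : ℝ) ^ (1 - 1 / 50000 : ℝ)) ∧
    ∀ x, {y | E.Adj x y ∧ typ K s (ω s(x, y)) ≠ none}.ncard ≤ C1

/-- BAS: the base (helper53), for every small `c`. `Q0` is avoided by the special vertices. -/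
def BASEStmt : Prop := ∀ c : ℝ, 0 < c → c ≤ 1 / 1000 → ∃ k0 : ℕ, ∀ k s M : ℕ, k0 ≤ k →
  s = ss k → M.Prime → (k : ℝ) ^ (0.539 : ℝ) ≤ M → (M : ℝ) ≤ (k : ℝ) ^ (0.54 : ℝ) →
  ∀ (k' : ℝ) (V : Type) [Fintype V] (N : SimpleGraph V) (R : Set (V × V))
    (O : Fin 40 → Set (V × V)) (β : Fin 40 → V → V → ℝ) (m : Fin 40 → ℕ) (Q0 : Finset V),
  0 ≤ k' → BI V k s M c k' N R O β m →
  (∀ g x, 20000 * ((outN (O g) x) ∩ Q0).card ≤ s ∧ 20000 * ((inN (O g) x) ∩ Q0).card ≤ s) →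
  ∃ (n : ℕ) (f : Fin n → V → Option V) (Z : Finset V) (Zc : Fin n → Finset V),
    BO V k s M c N R O m n f Z Zc ∧ Disjoint Z Q0

/-- the pool: optional arcs which are in no class -/
def pool {V : Type} (O : Fin 40 → Set (V × V)) {n : ℕ} (f : Fin n → V → Option V) (x y : V) :
    Prop := (∃ g, (x, y) ∈ O g) ∧ ∀ i, f i x ≠ some y

/-- marked nodes of the class `i` -/
def Mk {V : Type} {K n : ℕ} (s : ℕ) (η : Sym2 V → Fin K) (f : Fin n → V → Option V) (i : Fin n)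
    (x : V) : Prop := ∃ y, f i x = some y ∧ mkd s η x y

/-- both edges of the class `i` at `y` are marked -/
def both {V : Type} {K n : ℕ} (s : ℕ) (η : Sym2 V → Fin K) (f : Fin n → V → Option V) (i : Fin n)
    (y : V) : Prop :=
  (∃ z, f i y = some z ∧ mkd s η y z) ∧ ∃ z, f i z = some y ∧ mkd s η z y

/-- MRK: the marks (from LLB, EBL, EDC, TRK). `S` is any sparse set. The two conclusions about
`both` are used by M2 only. -/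
def MRKStmt : Prop := ∀ (C L : ℕ) (c c2 : ℝ), 0 < c → c ≤ 1 / 1000 → 0 < c2 → c2 ≤ 1 / 1000 →
  ∃ C1 : ℕ, ∀ δ : ℝ, 0 < δ →
  ∃ K0 : ℕ, ∀ K M k s : ℕ, K0 ≤ K → Prm K C M k s → ∀ A Q : ℝ, 1 ≤ A → 1 ≤ Q →
  ∀ (V : Type) [Fintype V] (R E : SimpleGraph V) (O : V → V → Prop) (ω : Sym2 V → Fin K)
    (m : Fin 40 → ℕ) (n : ℕ) (f : Fin n → V → Option V) (Z S : Finset V)
    (Zc : Fin n → Finset V), C4free R → (∀ v, 2 * K ≤ dg R v ∧ dg R v ≤ 2 * K + C) →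
  E ≤ R → (∀ v, (dg E v : ℝ) ≤ (K : ℝ) ^ (1 / 50000 : ℝ)) → Ori R O →
  BO V k s M c R (Rf O s ω) (Og O s ω) m n f Z Zc → n + 11 * s ≤ K → K ≤ n + 41 * s →
  Cnt (w1 R s ω) L A (41 * s) Q →
  (∀ v, ({u | R.Adj v u ∧ u ∈ S}.ncard : ℝ) ≤ (k : ℝ) ^ (1 - c2)) →
  (∀ g x, ((outN (Og O s ω g) x ∩ S).card : ℝ) ≤ s * (k : ℝ) ^ (-c2) ∧
    ((inN (Og O s ω g) x ∩ S).card : ℝ) ≤ s * (k : ℝ) ^ (-c2)) →
  ∃ η : Sym2 V → Fin K,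
    (∀ i x, Mk s η f i x →
      (1 - (k : ℝ) ^ (-0.48 : ℝ)) * (((K : ℝ) - n) * s / K) ≤
        ((univ.filter fun x' =>
          C4K.Cl.gam ⟨R.Adj, pool (Og O s ω) f, f i, Mk s η f i⟩ x x').card : ℝ) ∧
      ((univ.filter fun x' =>
          C4K.Cl.gam ⟨R.Adj, pool (Og O s ω) f, f i, Mk s η f i⟩ x x').card : ℝ) ≤
        (1 + (k : ℝ) ^ (-0.48 : ℝ)) * (((K : ℝ) - n) * s / K)) ∧
    (∀ i x', Mk s η f i x' →
      (1 - (k : ℝ) ^ (-0.48 : ℝ)) * (((K : ℝ) - n) * s / K) ≤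
        ((univ.filter fun x =>
          C4K.Cl.gam ⟨R.Adj, pool (Og O s ω) f, f i, Mk s η f i⟩ x x').card : ℝ) ∧
      ((univ.filter fun x =>
          C4K.Cl.gam ⟨R.Adj, pool (Og O s ω) f, f i, Mk s η f i⟩ x x').card : ℝ) ≤
        (1 + (k : ℝ) ^ (-0.48 : ℝ)) * (((K : ℝ) - n) * s / K)) ∧
    (∀ i, C4K.MK ⟨R.Adj, pool (Og O s ω) f, f i, Mk s η f i⟩ (C4K.kL1 k)) ∧
    (∀ x, ({y | R.Adj x y ∧ mkd s η x y}.ncard : ℝ) ≤ 5 * s) ∧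
    (∀ x, ({y | R.Adj x y ∧ mkd s η x y ∧ y ∈ S}.ncard : ℝ) ≤ s * (k : ℝ) ^ (-(c2 / 2))) ∧
    Cnt (ind (TT R s ω η)) L ((K : ℝ) ^ δ * A ^ L) (41 * s) Q ∧
    (∀ x, {y | E.Adj x y ∧ mkd s η x y}.ncard ≤ C1) ∧
    (∀ x, ({y | R.Adj x y ∧ ∃ z, E.Adj y z ∧ mkd s η y z}.ncard : ℝ) ≤
      (K : ℝ) ^ (1 - 1 / 50000 : ℝ)) ∧
    (∀ i v, ((s : ℝ) / K) ^ 2 * ((K : ℝ) - n) ≤
      ({y | (pool (Og O s ω) f v y ∨ pool (Og O s ω) f y v) ∧ both s η f i y}.ncard : ℝ)) ∧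
    ∀ i y, ({v | (TT R s ω η).Adj y v ∧ v ∈ S ∧ ∃ z, (f i v = some z ∨ f i z = some v) ∧
      both s η f i z}.ncard : ℝ) ≤ ((s : ℝ) / K) ^ 2 * (s * (k : ℝ) ^ (-(c2 / 2)))

/-- LFO: an acyclic partial injection along an orientation is a linear forest, with its degrees
(see `Helper3_LAX/Lfo.lean`). -/
def LFOStmt : Prop := ∀ (V : Type) [Fintype V] (f : V → Option V), C4K.PInj f →
  (∀ x y, f x = some y → f y ≠ some x) → (∀ x j, 1 ≤ j → C4K.it f j x ≠ some x) →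
  ∃ F : SimpleGraph V, (∀ x y, F.Adj x y ↔ f x = some y ∨ f y = some x) ∧ LF F ∧
    ∀ v, dg F v + (if f v = none then 1 else 0) + (if ∀ x, f x ≠ some v then 1 else 0) = 2

/-- ROU: one round (from EUL, SMP, BASE, MRK, WALKS, LFO). -/
def ROUStmt : Prop := ∀ (C L : ℕ) (c : ℝ), 0 < c → c ≤ 1 / 1000 →
  ∃ (C' : ℕ) (c' : ℝ), 0 < c' ∧ c' ≤ 1 / 1000 ∧ ∀ δ : ℝ, 0 < δ → ∃ K0 : ℕ, ∀ K : ℕ, K0 ≤ K →
  ∀ A Q : ℝ, 1 ≤ A → 1 ≤ Q → ∀ (V : Type) [Fintype V] (R E : SimpleGraph V),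
  St V R K C L c A Q → E ≤ R → (∀ v, (dg E v : ℝ) ≤ (K : ℝ) ^ (1 / 50000 : ℝ)) →
  ∃ (n : ℕ) (F : Fin n → SimpleGraph V) (R' : SimpleGraph V), n ≤ K ∧
    (∀ i, LF (F i)) ∧ R' ≤ R ∧ R' ⊔ (⨆ i, F i) = R ∧
    (K : ℝ) ^ (1 - 1 / 9000 : ℝ) ≤ ((K - n : ℕ) : ℝ) ∧
    ((K - n : ℕ) : ℝ) ≤ (K : ℝ) ^ (1 - 1 / 11000 : ℝ) ∧
    St V R' (K - n) C' L c' ((K : ℝ) ^ δ * A ^ (L * L)) Q ∧
    ∀ v, dg (R' ⊓ E) v ≤ C'

/-! ## start, end, induction -/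

/-- STA: a C4-free graph is an induced subgraph of a `d`-regular C4-free graph
(`Helper48_LLG/Reg.lean`, lemma `exit`, with `g = 4`). -/
def STAStmt : Prop := ∀ (V : Type) [Fintype V] (G : SimpleGraph V) (d : ℕ), C4free G →
  (∀ v, dg G v ≤ d) → ∃ (W : Type) (_ : Fintype W) (f : V ↪ W) (H : SimpleGraph W),
    H.comap f = G ∧ C4free H ∧ ∀ w, dg H w = d

/-- ST0: the first state. -/
def ST0Stmt : Prop := ∀ (L k : ℕ), 2 ≤ k → ∀ (V : Type) [Fintype V] (R : SimpleGraph V),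
  C4free R → (∀ v, dg R v = 2 * k) → St V R k 0 L (1 / 1000) (2 ^ L) ((k : ℝ) ^ 2)

/-- CYE: the edges on short cycles (cycles with at most `L` edges). -/
def CYEStmt : Prop := ∀ (V : Type) [Fintype V] (R : SimpleGraph V) (L : ℕ) (A κ Q : ℝ), 0 ≤ A →
  Cnt (ind R) L A κ Q → 1 ≤ κ → κ ^ L ≤ Q → ∃ E : SimpleGraph V, E ≤ R ∧
    (∀ v, (dg E v : ℝ) ≤ L * A) ∧ ∀ R' : SimpleGraph V, R' ≤ R → Big (R' \ E) L

/-- VIZ: a graph of maximum degree `D` is a union of `2 D` linear forests (greedy). -/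
def VIZStmt : Prop := ∀ (V : Type) [Fintype V] (G : SimpleGraph V) (D : ℕ),
  (∀ v, dg G v ≤ D) → ∃ F : Fin (2 * D) → SimpleGraph V, (∀ i, LF (F i)) ∧ ⨆ i, F i = G

/-- ITE: `J` rounds (from ROU, ST0; induction on `J`). -/
def ITEStmt : Prop := ∀ (J L : ℕ), ∃ (C : ℕ) (c : ℝ), 0 < c ∧ c ≤ 1 / 1000 ∧ ∀ δ : ℝ, 0 < δ →
  ∃ k0 : ℕ, ∀ k : ℕ, k0 ≤ k → ∀ (V : Type) [Fintype V] (R : SimpleGraph V), C4free R →
  (∀ v, dg R v = 2 * k) → ∃ (n : ℕ) (F : Fin n → SimpleGraph V) (R' : SimpleGraph V), n ≤ k ∧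
    (∀ i, LF (F i)) ∧ R' ≤ R ∧ R' ⊔ (⨆ i, F i) = R ∧
    (k : ℝ) ^ ((1 - 1 / 9000 : ℝ) ^ J) ≤ ((k - n : ℕ) : ℝ) ∧
    ((k - n : ℕ) : ℝ) ≤ (k : ℝ) ^ ((1 - 1 / 11000 : ℝ) ^ J) ∧
    St V R' (k - n) C L c ((k : ℝ) ^ δ) ((k : ℝ) ^ 2)

/-- TOP: the theorem M0 (from ITE, ROU, STA, CYE, VIZ and `TopcStmt`). `L = max 3 g0`; `J` rounds
with `k ^ (L * (1 - 1/11000)^J) ≤ k ^ 2`, `E` from CYE, one more round with this `E`; `R' \ E` by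
`TopcStmt`, `R' ⊓ E` by VIZ; small `k` by VIZ. -/
def TOPStmt : Prop := ∃ C : ℕ, ∀ (V : Type) [Fintype V] (G : SimpleGraph V) (Δ : ℕ),
  (∀ v, dg G v ≤ Δ) → C4free G →
  ∃ F : Fin (Δ / 2 + C) → SimpleGraph V, (∀ i, LF (F i)) ∧ ⨆ i, F i = G

end Pool.Agent.C4N
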