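import Pool.Agent.C4N.Stm
import Pool.Agent.C4K.StNumB

/-!
# MAIN, part M2: relocation of the defects and the exact theorem

Text: `/team-store/PAPER_C4_MAIN.md`, section 9 (helper22). Each `XStmt` is to be proved as
`theorem x : XStmt`; the statements used are hypotheses.
-/

set_option autoImplicit false

open scoped BigOperators Classical

noncomputable section

namespace Pool.Agent.C4N

open Finset
open Pool.Agent.LAG (near Big)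
open Pool.Agent.CG (GoodC)

/-! ## exchange steps -/

/-- FIL: a vertex of degree at most one gets the new neighbour `y` of degree two. -/
def FILStmt : Prop := ∀ (V : Type) [Fintype V] (F : SimpleGraph V) (v y u1 u2 : V), LF F →
  dg F v ≤ 1 → v ≠ y → ¬ F.Adj v y → u1 ≠ u2 → (∀ z, F.Adj y z ↔ z = u1 ∨ z = u2) →
  ∃ u, (u = u1 ∨ u = u2) ∧ LF ((F ⊔ SimpleGraph.edge v y) \ SimpleGraph.edge y u)

/-- INS: an edge `x y` between two vertices of degree two. -/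
def INSStmt : Prop := ∀ (V : Type) [Fintype V] (F : SimpleGraph V) (x y a1 a2 b1 b2 : V), LF F →
  x ≠ y → ¬ F.Adj x y → a1 ≠ a2 → b1 ≠ b2 → a1 ≠ b1 → a1 ≠ b2 → a2 ≠ b1 → a2 ≠ b2 →
  (∀ z, F.Adj x z ↔ z = a1 ∨ z = a2) → (∀ z, F.Adj y z ↔ z = b1 ∨ z = b2) →
  ∃ a b, (a = a1 ∨ a = a2) ∧ (b = b1 ∨ b = b2) ∧
    LF (((F ⊔ SimpleGraph.edge x y) \ SimpleGraph.edge x a) \ SimpleGraph.edge y b)

/-! ## chains -/

/-- chains of relocations: `st d`, `cl d` place and class of the defect `d`, `cand i p a` the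
candidate number `a` at `p`, `P b i y` the two neighbours of `y` in the class `i`, the chains go on
inside `X` -/
structure Chn (V I Δ : Type) (t l : ℕ) where
  cand : I → V → Fin t → V
  P : Bool → I → V → V
  X : Finset V
  st : Δ → V
  cl : Δ → I

section chn

variable {V I Δ : Type} {t l : ℕ}

/-- candidate at the place `p` in step `j` -/
def Chn.yp (C : Chn V I Δ t l) (ω : Δ → Fin l → Fin t) (d : Δ) (j : ℕ) (p : V) : V :=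
  if h : j < l then C.cand (C.cl d) p (ω d ⟨j, h⟩) else p

/-- place of the defect `d` after `j` steps with the sides `σ` -/
def Chn.ps (C : Chn V I Δ t l) (ω : Δ → Fin l → Fin t) (d : Δ) (σ : ℕ → Bool) : ℕ → V
  | 0 => C.st d
  | j + 1 => C.P (σ j) (C.cl d) (C.yp ω d j (Chn.ps C ω d σ j))

/-- the candidate used in step `j` -/
def Chn.yy (C : Chn V I Δ t l) (ω : Δ → Fin l → Fin t) (d : Δ) (σ : ℕ → Bool) (j : ℕ) : V :=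
  C.yp ω d j (C.ps ω d σ j)

/-- the places `1, …, j` are in `X` -/
def Chn.al (C : Chn V I Δ t l) (ω : Δ → Fin l → Fin t) (d : Δ) (σ : ℕ → Bool) (j : ℕ) : Prop :=
  ∀ j', 1 ≤ j' → j' ≤ j → C.ps ω d σ j' ∈ C.X

/-- good choices -/
structure Chn.Good (C : Chn V I Δ t l) (N : SimpleGraph V) (ρ : ℕ) (D2 : Set V)
    (ω : Δ → Fin l → Fin t) : Prop where
  dj : ∀ d d' σ σ' j j', d ≠ d' → j < l → j' < l → C.al ω d σ j → C.al ω d' σ' j' →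
    C.yy ω d σ j ≠ C.yy ω d' σ' j' ∧ C.yy ω d σ j ≠ C.ps ω d' σ' (j' + 1) ∧
      C.ps ω d σ (j + 1) ≠ C.ps ω d' σ' (j' + 1)
  sf : ∀ d σ j j', j < l → C.al ω d σ j → j' ≤ j →
    C.yy ω d σ j ≠ C.ps ω d σ j' ∧ (j' < j → C.yy ω d σ j ≠ C.yy ω d σ j')
  en : ∀ d d' σ σ', d ≠ d' → C.al ω d σ l → C.al ω d' σ' l →
    ¬ near N ρ (C.ps ω d σ l) (C.ps ω d' σ' l)
  e2 : ∀ d σ, C.al ω d σ l → ∀ x ∈ D2, ¬ near N ρ (C.ps ω d σ l) x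

end chn

/-- CHN: good choices exist (from `lll_sum`; pair events and single events). `aY i j y v`,
`aP i j w v` bound the probabilities that a chain of the class `i` from `v` has candidate `y` in
step `j`, place `w` after `j` steps. -/
def CHNStmt : Prop := ∀ (V I Δ : Type) [Fintype V] [Fintype I] [Fintype Δ] (t l ρ D : ℕ)
  (C : Chn V I Δ t l) (N : SimpleGraph V) (D2 : Set V) (aY aP : I → ℕ → V → V → ℝ) (κ κ2 : ℝ),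
  1 ≤ l → (∀ v, dg N v ≤ D) → (∀ i p, Function.Injective (C.cand i p)) →
  (∀ b i p, Function.Injective fun a => C.P b i (C.cand i p a)) →
  (∀ i p a, N.Adj p (C.cand i p a)) → (∀ b i p a, N.Adj (C.cand i p a) (C.P b i (C.cand i p a))) →
  (∀ x ∈ D2, ∀ y ∈ D2, x ≠ y → ¬ near N (4 * l + 2 * ρ) x y) →
  (∀ i j y v, 0 ≤ aY i j y v ∧ 0 ≤ aP i j y v) → (∀ i v, 1 ≤ aP i 0 v v) →
  (∀ i j y v, (∑ u ∈ univ.filter (fun u => (j = 0 ∨ u ∈ C.X) ∧ ∃ a, C.cand i u a = y),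
    aP i j u v) / t ≤ aY i j y v) →
  (∀ i j w v, (∑ y ∈ univ.filter (fun y => ∃ b, C.P b i y = w), aY i j y v) ≤
    aP i (j + 1) w v) →
  (∀ w, (∑ d, ∑ j ∈ range l, (aY (C.cl d) j w (C.st d) + aP (C.cl d) (j + 1) w (C.st d))) ≤ κ) →
  (∀ w, (∑ d, aP (C.cl d) l w (C.st d)) ≤ κ2) →
  κ * 2 ^ (l + 10) ≤ 1 → κ2 * (D + 1) ^ ρ * 2 ^ (l + 10) ≤ 1 → l ^ 2 * 2 ^ (l + 10) ≤ t →
  ∃ ω, C.Good N ρ D2 ω

/-- decomposition of `R` into linear forests `F` and the rest `R'` -/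
structure Dec {V : Type} {I : Type} (R R' : SimpleGraph V) (F : I → SimpleGraph V) : Prop where
  lf : ∀ i, LF (F i)
  un : R' ⊔ (⨆ i, F i) = R
  d1 : ∀ i, Disjoint R' (F i)
  d2 : ∀ i i', i ≠ i' → Disjoint (F i) (F i')

/-- SEQ: the relocations one after the other (from FIL, deterministic). Invariant: outside of the
starts and of the used vertices nothing has changed;
`dg (F i) x + #{d | cl d = i, place of d = x}` is constant. -/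
def SEQStmt : Prop := ∀ (V I Δ : Type) [Fintype V] [Fintype I] [Fintype Δ] (t l ρ : ℕ)
  (C : Chn V I Δ t l) (N T R R0 : SimpleGraph V) (F0 : I → SimpleGraph V) (D2 : Set V)
  (ω : Δ → Fin l → Fin t), 1 ≤ l → C.Good N ρ D2 ω → Dec R R0 F0 →
  (∀ i x, dg (F0 i) x + (univ.filter fun d => C.cl d = i ∧ C.st d = x).card ≤ 2) →
  (∀ i p a, R0.Adj p (C.cand i p a)) → (∀ i p a d, C.cand i p a ≠ C.st d) →
  (∀ i p a, C.P true i (C.cand i p a) ≠ C.P false i (C.cand i p a)) →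
  (∀ b i p a, (F0 i).Adj (C.cand i p a) (C.P b i (C.cand i p a)) ∧
    T.Adj (C.cand i p a) (C.P b i (C.cand i p a))) → R0 ≤ T →
  ∃ (F : I → SimpleGraph V) (R1 : SimpleGraph V) (e : Δ → V), Dec R R1 F ∧ R1 ≤ T ∧
    (∀ x, dg R1 x + (univ.filter fun d => C.st d = x).card =
      dg R0 x + (univ.filter fun d => e d = x).card) ∧
    ∀ d, ∃ σ j, j < l ∧ C.al ω d σ j ∧ e d = C.ps ω d σ (j + 1) ∧ (e d ∉ C.X ∨ j + 1 = l)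

/-! ## palette and loads -/

/-- PAL: a palette of density `1 / q` (from LLB, EDC / `mcd_abs`). The pairs of the different
`y ∈ Y i v` are disjoint since `N` is C4-free. -/
def PALStmt : Prop := ∀ c3 : ℝ, 0 < c3 → c3 ≤ 1 / 1000 → ∃ k0 : ℕ, ∀ k s q n : ℕ, k0 ≤ k →
  (k : ℝ) ^ (0.99 : ℝ) ≤ s → s ≤ k → q = ⌈(k : ℝ) ^ c3⌉₊ → n ≤ k →
  ∀ (V : Type) [Fintype V] (N T : SimpleGraph V) (Y : Fin n → V → Finset V)
    (P : Bool → Fin n → V → V), C4free N → T ≤ N → (∀ v, dg N v ≤ 3 * k) →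
  (∀ v, dg T v ≤ 100 * s) →
  (∀ i v, ∀ y ∈ Y i v, N.Adj v y ∧ P true i y ≠ P false i y ∧
    ∀ b, N.Adj y (P b i y) ∧ P b i y ≠ v) →
  (∀ i v, (k : ℝ) ^ (0.99 : ℝ) ≤ (Y i v).card) →
  ∃ Pal : Finset V, (∀ v, ({u | N.Adj v u ∧ u ∈ Pal}.ncard : ℝ) ≤ 10 * k / q) ∧
    (∀ v, ({u | T.Adj v u ∧ u ∈ Pal}.ncard : ℝ) ≤ 300 * s / q) ∧
    ∀ i v, (Y i v).card ≤
      2 * q ^ 2 * ((Y i v).filter fun y => P true i y ∈ Pal ∧ P false i y ∈ Pal).card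

/-- lost vertices of the class `i` -/
def lse {V : Type} {n : ℕ} (f D : Fin n → V → Option V) (i : Fin n) (v : V) : Prop :=
  ((∃ y, f i v = some y) ∧ D i v = none) ∨ ((∃ x, f i x = some v) ∧ ∀ x, D i x ≠ some v)

/-- the probabilities of the chains -/
structure Rec {V : Type} [Fintype V] {n : ℕ} (t : ℕ) (T : SimpleGraph V)
    (f : Fin n → V → Option V) (bth : Fin n → V → Prop) (X : Finset V)
    (aY aP : Fin n → ℕ → V → V → ℝ) : Prop where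
  nn : ∀ i j y v, 0 ≤ aY i j y v ∧ 0 ≤ aP i j y v
  r0 : ∀ i v, 1 ≤ aP i 0 v v
  rY : ∀ i j y v, bth i y →
    (∑ u ∈ univ.filter (fun u => (j = 0 ∨ u ∈ X) ∧ T.Adj u y), aP i j u v) / t ≤ aY i j y v
  rP : ∀ i j w v, (∑ y ∈ univ.filter (fun y => f i y = some w ∨ f i w = some y), aY i j y v) ≤
    aP i (j + 1) w v
  z : ∀ i j y v, ¬ bth i y → aY i j y v = 0

/-- LIF: the linear family (deterministic). `aP i 0 w v = [w = v]`,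
`aY i j y v = [bth i y] (1 / t) ∑_{u ~ y in T, j = 0 or u ∈ X} aP i j u v`,
`aP i (j + 1) w v = ∑_{y ~ w in the class i} aY i j y v`. The family `U` is `V ⊕ V ⊕ V`, with the
coefficients `[T.Adj v u] / s`, `(∑_{j < l} (aY i j w v + aP i (j + 1) w v)) / (6 s / t)`,
`aP i l w v / ((2 s / t) (16 k ^ (- 3 c2 / 8)) ^ (l - 1))`. -/
def LIFStmt : Prop := ∀ (l : ℕ) (c2 : ℝ), 1 ≤ l → 0 < c2 → c2 ≤ 1 / 1000 → ∃ B k0 : ℕ,
  ∀ k K s q t n : ℕ, k0 ≤ k → K ≤ k → k ≤ 2 * K → s = ss k → q = ⌈(k : ℝ) ^ (c2 / 16)⌉₊ →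
  t = ⌊((s : ℝ) / K) ^ 2 * s / q ^ 2⌋₊ → n ≤ k →
  ∀ (V : Type) [Fintype V] (N T : SimpleGraph V) (f : Fin n → V → Option V)
    (bth : Fin n → V → Prop) (X : Finset V), T ≤ N → (∀ v, dg N v ≤ 3 * k) →
  (∀ v, dg T v ≤ 100 * s) → (∀ i, C4K.PInj (f i)) → (∀ i x y, f i x = some y → N.Adj x y) →
  (∀ i y, ({v | T.Adj y v ∧ v ∈ X ∧ ∃ z, (f i v = some z ∨ f i z = some v) ∧
    bth i z}.ncard : ℝ) ≤ ((s : ℝ) / K) ^ 2 * (s * (k : ℝ) ^ (-(c2 / 2)))) →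
  ∃ (aY aP : Fin n → ℕ → V → V → ℝ) (U : Type) (_ : Fintype U) (a : U → Fin n → V → ℝ),
    C4K.LinH (k : ℝ) B U a ∧ Rec t T f bth X aY aP ∧
    ∀ lo : Fin n → V → Prop,
      (∀ u, (∑ c, ∑ v, a u c v * (if lo c v then 1 else 0)) ≤ (k : ℝ) ^ (-0.001 : ℝ)) →
      (∀ v, (((univ : Finset (Fin n × V)).filter fun x => T.Adj v x.2 ∧ lo x.1 x.2).card : ℝ) ≤
        s * (k : ℝ) ^ (-0.001 : ℝ)) ∧
      (∀ w, (∑ i, ∑ v, (∑ j ∈ range l, (aY i j w v + aP i (j + 1) w v)) *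
        (if lo i v then 1 else 0)) ≤ (k : ℝ) ^ (-0.0004 : ℝ)) ∧
      ∀ w, (∑ i, ∑ v, aP i l w v * (if lo i v then 1 else 0)) ≤
        (k : ℝ) ^ (-(c2 / 4 * ((l : ℝ) - 1)))

/-! ## one round -/

/-- `D2` is separated in `N` -/
def Sep {V : Type} (N R : SimpleGraph V) (K ρ : ℕ) : Prop :=
  ∀ x y, dg R x = 2 * K + 2 → dg R y = 2 * K + 2 → x ≠ y → ¬ near N ρ x y

/-- the data of a round after the walks: `f` classes of the base, `D` classes after the walks,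
`T` optional and marked edges, `Z` special vertices, `X` = special vertices and vertices of degree
`≠ 2 K` -/
structure RD (V : Type) [Fintype V] (K k s t l n : ℕ) (c2 : ℝ) (R T : SimpleGraph V)
    (f D : Fin n → V → Option V) (bth : Fin n → V → Prop) (Z X : Finset V)
    (aY aP : Fin n → ℕ → V → V → ℝ) : Prop where
  c4 : C4free R
  dR : ∀ v, 2 * K ≤ dg R v ∧ dg R v ≤ 2 * K + 2
  TR : T ≤ R
  dT : ∀ v, dg T v ≤ 100 * s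
  fi : ∀ i, C4K.PInj (f i)
  fR : ∀ i x y, f i x = some y → R.Adj x y
  fs : ∀ i i' x y, f i x = some y → f i' y ≠ some x
  Di : ∀ i, C4K.PInj (D i)
  Da : ∀ i x j, 1 ≤ j → C4K.it (D i) j x ≠ some x
  DR : ∀ i x y, D i x = some y → R.Adj x y
  Dd : ∀ i i' x y, D i x = some y → D i' x = some y → i = i'
  Ds : ∀ i i' x y, D i x = some y → D i' y ≠ some x
  dm : ∀ i x y, D i x = some y → (∃ y', f i x = some y') ∧ ∃ x', f i x' = some y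
  rT : ∀ x y, R.Adj x y → (∀ i, D i x ≠ some y ∧ D i y ≠ some x) → T.Adj x y
  one : ∀ x, (univ.filter fun i => f i x = none).card +
    (univ.filter fun i => ∀ y, f i y ≠ some x).card ≤ 1
  Zd : ∀ x, x ∉ Z → ∀ i, (∃ y, f i x = some y) ∧ ∃ y, f i y = some x
  Ze : ∀ x ∈ Z, dg R x = 2 * K
  X1 : ∀ x, x ∈ X ↔ x ∈ Z ∨ dg R x ≠ 2 * K
  xR : ∀ v, ({u | R.Adj v u ∧ u ∈ X}.ncard : ℝ) ≤ (k : ℝ) ^ (1 - c2)
  xT : ∀ v, ({u | T.Adj v u ∧ u ∈ X}.ncard : ℝ) ≤ 100 * s * (k : ℝ) ^ (-(c2 / 2))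
  bt : ∀ i y, bth i y → ∃ z x, f i y = some z ∧ f i x = some y ∧ T.Adj y z ∧ T.Adj x y
  cd : ∀ i v, 5 * ((s : ℝ) / K) ^ 2 * s ≤ ({y | R.Adj v y ∧
    (∀ c, D c v ≠ some y ∧ D c y ≠ some v) ∧ bth i y ∧ D i y = f i y ∧
    (∀ x, f i x = some y → D i x = some y) ∧ ∀ c, ¬ lse f D c y}.ncard : ℝ)
  rc : Rec t T f bth X aY aP
  l1 : ∀ w, (∑ i, ∑ v, (∑ j ∈ range l, (aY i j w v + aP i (j + 1) w v)) *
    (if lse f D i v then 1 else 0)) ≤ (k : ℝ) ^ (-0.0004 : ℝ)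
  l2 : ∀ w, (∑ i, ∑ v, aP i l w v * (if lse f D i v then 1 else 0)) ≤
    (k : ℝ) ^ (-(c2 / 4 * ((l : ℝ) - 1)))

/-- RA: the round up to the walks (from EUL, SMP, BASE with `Q0 = {dg R ≠ 2 K}`, MRK with
`S = Z ∪ Q0`, `c2 = c / 7`, LIF, WALKSM). `cd`: from MRK (`both`), minus the changed arcs at `v`
(SW1), minus the `y` with changed arcs in the class `i` (SW2), minus the lost `y` (LIF). -/
def RAStmt : Prop := ∀ (L : ℕ) (c : ℝ), 0 < c → c ≤ 1 / 1000 → ∃ C1 : ℕ, ∀ l : ℕ, 1 ≤ l →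
  ∀ δ : ℝ, 0 < δ → ∃ K0 : ℕ, ∀ K k s q t : ℕ, K0 ≤ K → k = K + 2 → s = ss k →
  q = ⌈(k : ℝ) ^ (c / 7 / 16)⌉₊ → t = ⌊((s : ℝ) / K) ^ 2 * s / q ^ 2⌋₊ →
  ∀ A Q : ℝ, 1 ≤ A → 1 ≤ Q → ∀ (V : Type) [Fintype V] (R E : SimpleGraph V),
  St V R K 2 L c A Q → E ≤ R → (∀ v, (dg E v : ℝ) ≤ (K : ℝ) ^ (1 / 50000 : ℝ)) →
  ∃ (n : ℕ) (T : SimpleGraph V) (f D : Fin n → V → Option V) (bth : Fin n → V → Prop)
    (Z X : Finset V) (aY aP : Fin n → ℕ → V → V → ℝ), n + 11 * s ≤ K ∧ K ≤ n + 41 * s ∧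
    RD V K k s t l n (c / 7) R T f D bth Z X aY aP ∧
    Cnt (ind T) L ((K : ℝ) ^ δ * A ^ (L * L)) (41 * s) Q ∧ (∀ x, dg (T ⊓ E) x ≤ C1) ∧
    ∀ x, ({y | R.Adj x y ∧ ∃ z, (T ⊓ E).Adj y z}.ncard : ℝ) ≤
      2 * (K : ℝ) ^ (1 - 1 / 50000 : ℝ)

/-- RB: the relocations of a round (from LFO, PAL, CHN, SEQ). Defects: the lost arcs. -/
def RBStmt : Prop := ∀ (c2 : ℝ) (l ρ : ℕ), 0 < c2 → c2 ≤ 1 / 1000 → 1 ≤ l →
  (ρ : ℝ) + 1 ≤ c2 / 4 * ((l : ℝ) - 1) → ∃ K0 : ℕ, ∀ K k s q t n : ℕ, K0 ≤ K → k = K + 2 →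
  s = ss k → q = ⌈(k : ℝ) ^ (c2 / 16)⌉₊ → t = ⌊((s : ℝ) / K) ^ 2 * s / q ^ 2⌋₊ →
  n + 11 * s ≤ K → K ≤ n + 41 * s → ∀ (V : Type) [Fintype V] (R T : SimpleGraph V)
    (f D : Fin n → V → Option V) (bth : Fin n → V → Prop) (Z X : Finset V)
    (aY aP : Fin n → ℕ → V → V → ℝ), RD V K k s t l n c2 R T f D bth Z X aY aP →
  Sep R R K (4 * l + 2 * ρ) →
  ∃ (F : Fin n → SimpleGraph V) (R' : SimpleGraph V), Dec R R' F ∧ R' ≤ T ∧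
    (∀ v, 2 * (K - n) ≤ dg R' v ∧ dg R' v ≤ 2 * (K - n) + 2) ∧ Sep R R' (K - n) ρ ∧
    (∀ v, ({u | R.Adj v u ∧ dg R' u ≠ 2 * (K - n)}.ncard : ℝ) ≤ (k : ℝ) ^ (1 - c2 / 20)) ∧
    ∀ v, ({u | T.Adj v u ∧ dg R' u ≠ 2 * (K - n)}.ncard : ℝ) ≤ s * (k : ℝ) ^ (-(c2 / 20))

/-- ROU2: one round with relocation (from RA, RB). -/
def ROU2Stmt : Prop := ∀ (L : ℕ) (c : ℝ), 0 < c → c ≤ 1 / 1000 →
  ∃ (C1 : ℕ) (c' : ℝ), 0 < c' ∧ c' ≤ 1 / 1000 ∧ ∀ ρ' : ℕ, ∃ ρ : ℕ, ∀ δ : ℝ, 0 < δ →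
  ∃ K0 : ℕ, ∀ K : ℕ, K0 ≤ K → ∀ A Q : ℝ, 1 ≤ A → 1 ≤ Q → ∀ (V : Type) [Fintype V]
    (R E : SimpleGraph V), St V R K 2 L c A Q → Sep R R K ρ → E ≤ R →
  (∀ v, (dg E v : ℝ) ≤ (K : ℝ) ^ (1 / 50000 : ℝ)) →
  ∃ (n : ℕ) (F : Fin n → SimpleGraph V) (R' : SimpleGraph V), n ≤ K ∧ Dec R R' F ∧
    (K : ℝ) ^ (1 - 1 / 9000 : ℝ) ≤ ((K - n : ℕ) : ℝ) ∧
    ((K - n : ℕ) : ℝ) ≤ (K : ℝ) ^ (1 - 1 / 11000 : ℝ) ∧
    St V R' (K - n) 2 L c' ((K : ℝ) ^ δ * A ^ (L * L)) Q ∧ Sep R R' (K - n) ρ' ∧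
    (∀ v, ({u | R.Adj v u ∧ dg R' u ≠ 2 * (K - n)}.ncard : ℝ) ≤ (K : ℝ) ^ (1 - c')) ∧
    (∀ v, dg (R' ⊓ E) v ≤ C1) ∧
    ∀ x, ({y | R.Adj x y ∧ ∃ z, (R' ⊓ E).Adj y z}.ncard : ℝ) ≤
      2 * (K : ℝ) ^ (1 - 1 / 50000 : ℝ)

/-! ## induction, elimination of `E`, end -/

/-- ITE2: `J` rounds (from ROU2, ST0). -/
def ITE2Stmt : Prop := ∀ (J L : ℕ), ∃ c : ℝ, 0 < c ∧ c ≤ 1 / 1000 ∧ ∀ (ρ : ℕ) (δ : ℝ), 0 < δ →
  ∃ k0 : ℕ, ∀ k : ℕ, k0 ≤ k → ∀ (V : Type) [Fintype V] (R : SimpleGraph V), C4free R →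
  (∀ v, dg R v = 2 * k) → ∃ (n : ℕ) (F : Fin n → SimpleGraph V) (R' : SimpleGraph V), n ≤ k ∧
    (∀ i, LF (F i)) ∧ R' ≤ R ∧ R' ⊔ (⨆ i, F i) = R ∧
    (k : ℝ) ^ ((1 - 1 / 9000 : ℝ) ^ J) ≤ ((k - n : ℕ) : ℝ) ∧
    ((k - n : ℕ) : ℝ) ≤ (k : ℝ) ^ ((1 - 1 / 11000 : ℝ) ^ J) ∧
    St V R' (k - n) 2 L c ((k : ℝ) ^ δ) ((k : ℝ) ^ 2) ∧ Sep R' R' (k - n) ρ

/-- ELI: elimination of the edges of `E` from the rest (from INS, LLB / `lll_sum`, EDC). Every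
edge `x y` of `R' ⊓ E` goes into a class `i` in which `x`, `y` have degree two and the four
neighbours are different, outside `{dg R' ≠ 2 K'}`, outside the vertices with an edge of
`R' ⊓ E`, in a palette of density `K ^ (-1 / 10 ^ 6)`, and the four edges are not in `E`; one edge
at `x` and one at `y` return to the rest. Pair events: common neighbour, or common vertex and
class. -/
def ELIStmt : Prop := ∀ (C1 : ℕ) (c : ℝ), 0 < c → c ≤ 1 / 1000 → ∃ K0 : ℕ, ∀ K n : ℕ,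
  K0 ≤ K → n ≤ K → (K : ℝ) ^ (1 - 1 / 9000 : ℝ) ≤ ((K - n : ℕ) : ℝ) →
  ((K - n : ℕ) : ℝ) ≤ (K : ℝ) ^ (1 - 1 / 11000 : ℝ) → ∀ (V : Type) [Fintype V]
    (R R' E : SimpleGraph V) (F : Fin n → SimpleGraph V), C4free R →
  (∀ v, 2 * K ≤ dg R v ∧ dg R v ≤ 2 * K + 2) → Dec R R' F →
  (∀ v, 2 * (K - n) ≤ dg R' v ∧ dg R' v ≤ 2 * (K - n) + 2) →
  (∀ v, ({u | R.Adj v u ∧ dg R' u ≠ 2 * (K - n)}.ncard : ℝ) ≤ (K : ℝ) ^ (1 - c)) →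
  (∀ v, ({u | R'.Adj v u ∧ dg R' u ≠ 2 * (K - n)}.ncard : ℝ) ≤
    ((K - n : ℕ) : ℝ) ^ (1 - c)) → (∀ v, (dg E v : ℝ) ≤ (K : ℝ) ^ (1 / 50000 : ℝ)) →
  (∀ v, dg (R' ⊓ E) v ≤ C1) →
  (∀ x, ({y | R.Adj x y ∧ ∃ z, (R' ⊓ E).Adj y z}.ncard : ℝ) ≤
    2 * (K : ℝ) ^ (1 - 1 / 50000 : ℝ)) → Sep R R' (K - n) 400 →
  ∃ (F' : Fin n → SimpleGraph V) (R'' : SimpleGraph V), (∀ i, LF (F' i)) ∧ R'' ≤ R ∧
    R'' ⊔ (⨆ i, F' i) = R ∧ Disjoint R'' E ∧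
    (∀ v, 2 * (K - n) ≤ dg R'' v ∧ dg R'' v ≤ 2 * (K - n) + 2) ∧ Sep R R'' (K - n) 400 ∧
    ∀ v, 10 * {u | R''.Adj v u ∧ dg R'' u ≠ 2 * (K - n)}.ncard ≤ K - n

/-- GOA: from the proof of `Helper24_CG/Topc.lean`. -/
def GOAStmt : Prop := ∃ g : ℕ, 8000 ≤ g ∧ ∀ k, GoodC k g

/-- FIN2: the end (from GOA, Hall). `J ≤ A` has one edge at the vertices of degree `2 K + 1`, two
at those of degree `2 K + 2`, with different other ends of degree `2 K`; `Q 0 = {2 K + 2}`; the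
last forest is `J ⊔ N`. -/
def FIN2Stmt : Prop := ∃ g : ℕ, ∀ (K : ℕ) (V : Type) [Fintype V] (A : SimpleGraph V), Big A g →
  (∀ v, 2 * K ≤ dg A v ∧ dg A v ≤ 2 * K + 2) →
  (∀ v, 10 * {u | A.Adj v u ∧ dg A u ≠ 2 * K}.ncard ≤ K) → Sep A A K 400 →
  ∃ F : Fin (K + 1) → SimpleGraph V, (∀ i, LF (F i)) ∧ ⨆ i, F i = A

/-- TOP2: the exact theorem (from ITE2, ROU2, ELI, FIN2, STA, CYE). -/
def TOP2Stmt : Prop := ∃ Δ0 : ℕ, ∀ (V : Type) [Fintype V] (G : SimpleGraph V) (Δ : ℕ),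
  Δ0 ≤ Δ → (∀ v, dg G v ≤ Δ) → C4free G →
  ∃ F : Fin ((Δ + 1) / 2 + 1) → SimpleGraph V, (∀ i, LF (F i)) ∧ ⨆ i, F i = G

end Pool.Agent.C4N
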